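import Mathlib

/-!
Copy of the library file Pool.Graph.R_pool_sql_team_seeded_2aa45f1a.Results.MP_3c8d56_co.TorusExamples
without its final theorem: definitions, the torus graphs `G(p,q)`, `k G(p,q) ≅ G(q,p)`, covering maps.
-/

set_option linter.all false

set_option autoImplicit false

namespace Pool.Agent.KS6_72C

/-- A (possibly infinite) simple graph together with its vertex type. -/
structure Gr : Type 1 where
  V : Type
  G : SimpleGraph V

/-- The clique graph: vertices are the inclusion-maximal cliques, two distinct ones being adjacent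
when they share a vertex. -/
def Gr.k (A : Gr) : Gr where
  V := {S : Set A.V // Maximal A.G.IsClique S}
  G :=
    { Adj := fun S T => S ≠ T ∧ (S.1 ∩ T.1).Nonempty
      symm := ⟨by
        rintro S T ⟨h1, h2⟩
        exact ⟨h1.symm, by rwa [Set.inter_comm]⟩⟩
      loopless := ⟨fun S h => h.1 rfl⟩ }

/-- Isomorphism of graphs. -/
def Gr.Iso (A B : Gr) : Prop := Nonempty (A.G ≃g B.G)

/-- The closed neighbourhood. -/
def nbh (A : Gr) (v : A.V) : Set A.V := {u | u = v ∨ A.G.Adj v u}

/-- Locally finite. -/
def Gr.LocFin (A : Gr) : Prop := ∀ v, (nbh A v).Finite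

/-- `p` is a triangular covering map from `A` to `B`. -/
structure TriCover (A B : Gr) (p : A.V → B.V) : Prop where
  connA : A.G.Connected
  connB : B.G.Connected
  hom : ∀ u v, A.G.Adj u v → B.G.Adj (p u) (p v)
  bij : ∀ v, Set.BijOn p (nbh A v) (nbh B (p v))
  iso : ∀ v, ∀ a ∈ nbh A v, ∀ b ∈ nbh A v, (A.G.Adj a b ↔ B.G.Adj (p a) (p b))

/-! ### The graphs `G(p,q)` -/

/-- vertices `x i j` and `m i j` -/
inductive W (p q : ℕ) : Type
  | x (i : ZMod p) (j : ZMod q)
  | m (i : ZMod p) (j : ZMod q)

open W

variable {p q : ℕ}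

def adj : W p q → W p q → Prop
  | x i j, x i' j' => j = j' ∧ (i' = i + 1 ∨ i = i' + 1)
  | m i j, m i' j' => i = i' ∧ (j' = j + 1 ∨ j = j' + 1)
  | x i j, m i' j' => i = i' ∧ (j' = j ∨ j' + 1 = j)
  | m i' j', x i j => i = i' ∧ (j' = j ∨ j' + 1 = j)

lemma adj_symm {a b : W p q} (h : adj a b) : adj b a := by
  cases a <;> cases b <;> simp only [adj] at h ⊢ <;> ((try generalize (1 : ZMod p) = e at *); (try generalize (1 : ZMod q) = f at *); (try generalize (1 : ZMod q') = g at *); (try generalize (1 : ZMod r) = h at *); grind)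

lemma adj_irrefl (hp : (1 : ZMod p) ≠ 0) (hq : (1 : ZMod q) ≠ 0) (a : W p q) : ¬ adj a a := by
  cases a <;> simp only [adj] <;> ((try generalize (1 : ZMod p) = e at *); (try generalize (1 : ZMod q) = f at *); (try generalize (1 : ZMod q') = g at *); (try generalize (1 : ZMod r) = h at *); grind)

lemma small_ne {r : ℕ} (hr : 4 ≤ r) (k : ℕ) (h0 : 0 < k) (hk : k < 4) : (k : ZMod r) ≠ 0 := by
  rw [Ne, ZMod.natCast_eq_zero_iff]
  intro h
  have := Nat.le_of_dvd h0 h
  omega

lemma one_ne {r : ℕ} (hr : 4 ≤ r) : (1 : ZMod r) ≠ 0 := by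
  simpa using small_ne hr 1 (by norm_num) (by norm_num)
lemma two_ne {r : ℕ} (hr : 4 ≤ r) : (1 : ZMod r) + 1 ≠ 0 := by
  have := small_ne hr 2 (by norm_num) (by norm_num)
  intro h
  apply this
  push_cast
  linear_combination h
lemma three_ne {r : ℕ} (hr : 4 ≤ r) : (1 : ZMod r) + 1 + 1 ≠ 0 := by
  have := small_ne hr 3 (by norm_num) (by norm_num)
  intro h
  apply this
  push_cast
  linear_combination h

/-- The graph `G(p,q)`, `p, q ≥ 4`. -/
abbrev T (p q : ℕ) (hp : 4 ≤ p) (hq : 4 ≤ q) : Gr where
  V := W p q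
  G :=
    { Adj := adj
      symm := ⟨fun _ _ h => adj_symm h⟩
      loopless := ⟨fun a => adj_irrefl (one_ne hp) (one_ne hq) a⟩ }

section cliques

variable (hp : 4 ≤ p) (hq : 4 ≤ q)

/-- the clique attached to a vertex of `G(q,p)` -/
def cl : W q p → Set (W p q)
  | x j i => {x i j, m i j, m i (j - 1)}
  | m j i => {x i j, x (i + 1) j}

lemma cl_clique (c : W q p) : (T p q hp hq).G.IsClique (cl c) := by
  have hp1 := one_ne hp
  have hq1 := one_ne hq
  intro a ha b hb hab
  change adj a b
  cases c with
  | x j i =>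
    simp only [cl, Set.mem_insert_iff, Set.mem_singleton_iff] at ha hb
    rcases ha with rfl | rfl | rfl <;> rcases hb with rfl | rfl | rfl <;>
      first
        | exact absurd rfl hab
        | (simp only [adj]; ((try generalize (1 : ZMod p) = e at *); (try generalize (1 : ZMod q) = f at *); (try generalize (1 : ZMod q') = g at *); (try generalize (1 : ZMod r) = h at *); grind))
  | m j i =>
    simp only [cl, Set.mem_insert_iff, Set.mem_singleton_iff] at ha hb
    rcases ha with rfl | rfl <;> rcases hb with rfl | rfl <;>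
      first
        | exact absurd rfl hab
        | (simp only [adj]; ((try generalize (1 : ZMod p) = e at *); (try generalize (1 : ZMod q) = f at *); (try generalize (1 : ZMod q') = g at *); (try generalize (1 : ZMod r) = h at *); grind))

lemma cl_inj_of_subset {c d : W q p} (hp : 4 ≤ p) (hq : 4 ≤ q) (h : cl c ⊆ cl d) : c = d := by
  have hp1 := one_ne hp
  have hp2 := two_ne hp
  have hq1 := one_ne hq
  have hq2 := two_ne hq
  cases c with
  | x j i =>
    have h1 : x i j ∈ cl d := h (by simp [cl])
    have h2 : m i j ∈ cl d := h (by simp [cl])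
    have h3 : m i (j - 1) ∈ cl d := h (by simp [cl])
    cases d with
    | x j' i' =>
      simp only [cl, Set.mem_insert_iff, Set.mem_singleton_iff, W.x.injEq, W.m.injEq, reduceCtorEq] at h1 h2 h3
      ((try generalize (1 : ZMod p) = e at *); (try generalize (1 : ZMod q) = f at *); (try generalize (1 : ZMod q') = g at *); (try generalize (1 : ZMod r) = h at *); grind)
    | m j' i' =>
      simp only [cl, Set.mem_insert_iff, Set.mem_singleton_iff, W.x.injEq, W.m.injEq, reduceCtorEq] at h1 h2 h3
      ((try generalize (1 : ZMod p) = e at *); (try generalize (1 : ZMod q) = f at *); (try generalize (1 : ZMod q') = g at *); (try generalize (1 : ZMod r) = h at *); grind)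
  | m j i =>
    have h1 : x i j ∈ cl d := h (by simp [cl])
    have h2 : x (i + 1) j ∈ cl d := h (by simp [cl])
    cases d with
    | x j' i' =>
      simp only [cl, Set.mem_insert_iff, Set.mem_singleton_iff, W.x.injEq, reduceCtorEq] at h1 h2
      ((try generalize (1 : ZMod p) = e at *); (try generalize (1 : ZMod q) = f at *); (try generalize (1 : ZMod q') = g at *); (try generalize (1 : ZMod r) = h at *); grind)
    | m j' i' =>
      simp only [cl, Set.mem_insert_iff, Set.mem_singleton_iff, W.x.injEq] at h1 h2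
      ((try generalize (1 : ZMod p) = e at *); (try generalize (1 : ZMod q) = f at *); (try generalize (1 : ZMod q') = g at *); (try generalize (1 : ZMod r) = h at *); grind)

lemma adj_or_eq {S : Set (W p q)} (hS : (T p q hp hq).G.IsClique S) {a b : W p q} (ha : a ∈ S)
    (hb : b ∈ S) : a = b ∨ adj a b := by
  by_cases h : a = b
  · exact Or.inl h
  · exact Or.inr (hS ha hb h)

lemma clique_subset {S : Set (W p q)} (hS : (T p q hp hq).G.IsClique S) : ∃ c : W q p, S ⊆ cl c := by
  have hp1 := one_ne hp
  have hp2 := two_ne hp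
  have hp3 := three_ne hp
  have hq1 := one_ne hq
  have hq2 := two_ne hq
  have hq3 := three_ne hq
  by_cases hm : ∃ i j, m i j ∈ S
  · obtain ⟨i, j, hm⟩ := hm
    by_cases h1 : m i (j - 1) ∈ S
    · refine ⟨x j i, ?_⟩
      intro v hv
      have e1 := adj_or_eq hp hq hS hm hv
      have e2 := adj_or_eq hp hq hS h1 hv
      cases v with
      | x i' j' =>
        simp only [cl, Set.mem_insert_iff, Set.mem_singleton_iff, W.x.injEq, reduceCtorEq, adj] at e1 e2 ⊢
        ((try generalize (1 : ZMod p) = e at *); (try generalize (1 : ZMod q) = f at *); (try generalize (1 : ZMod q') = g at *); (try generalize (1 : ZMod r) = h at *); grind)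
      | m i' j' =>
        simp only [cl, Set.mem_insert_iff, Set.mem_singleton_iff, W.m.injEq, reduceCtorEq, adj] at e1 e2 ⊢
        ((try generalize (1 : ZMod p) = e at *); (try generalize (1 : ZMod q) = f at *); (try generalize (1 : ZMod q') = g at *); (try generalize (1 : ZMod r) = h at *); grind)
    · by_cases h2 : x i j ∈ S
      · refine ⟨x j i, ?_⟩
        intro v hv
        have e1 := adj_or_eq hp hq hS hm hv
        have e2 := adj_or_eq hp hq hS h2 hv
        cases v with
        | x i' j' =>
          simp only [cl, Set.mem_insert_iff, Set.mem_singleton_iff, W.x.injEq, reduceCtorEq, adj] at e1 e2 ⊢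
          ((try generalize (1 : ZMod p) = e at *); (try generalize (1 : ZMod q) = f at *); (try generalize (1 : ZMod q') = g at *); (try generalize (1 : ZMod r) = h at *); grind)
        | m i' j' =>
          simp only [cl, Set.mem_insert_iff, Set.mem_singleton_iff, W.m.injEq, reduceCtorEq, adj] at e1 e2 ⊢
          ((try generalize (1 : ZMod p) = e at *); (try generalize (1 : ZMod q) = f at *); (try generalize (1 : ZMod q') = g at *); (try generalize (1 : ZMod r) = h at *); grind)
      · refine ⟨x (j + 1) i, ?_⟩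
        intro v hv
        have e1 := adj_or_eq hp hq hS hm hv
        cases v with
        | x i' j' =>
          have e2 : ¬ (i' = i ∧ j' = j) := by rintro ⟨rfl, rfl⟩; exact h2 hv
          simp only [cl, Set.mem_insert_iff, Set.mem_singleton_iff, W.x.injEq, reduceCtorEq, adj] at e1 ⊢
          ((try generalize (1 : ZMod p) = e at *); (try generalize (1 : ZMod q) = f at *); (try generalize (1 : ZMod q') = g at *); (try generalize (1 : ZMod r) = h at *); grind)
        | m i' j' =>
          have e2 : ¬ (i' = i ∧ j' = j - 1) := by rintro ⟨rfl, rfl⟩; exact h1 hv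
          simp only [cl, Set.mem_insert_iff, Set.mem_singleton_iff, W.m.injEq, reduceCtorEq, adj] at e1 ⊢
          ((try generalize (1 : ZMod p) = e at *); (try generalize (1 : ZMod q) = f at *); (try generalize (1 : ZMod q') = g at *); (try generalize (1 : ZMod r) = h at *); grind)
  · push Not at hm
    rcases S.eq_empty_or_nonempty with rfl | ⟨v0, hv0⟩
    · exact ⟨x 0 0, Set.empty_subset _⟩
    · cases v0 with
      | m i j => exact absurd hv0 (hm i j)
      | x i j =>
        by_cases h1 : x (i + 1) j ∈ S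
        · refine ⟨m j i, ?_⟩
          intro v hv
          have e1 := adj_or_eq hp hq hS hv0 hv
          have e2 := adj_or_eq hp hq hS h1 hv
          cases v with
          | m i' j' => exact absurd hv (hm i' j')
          | x i' j' =>
            simp only [cl, Set.mem_insert_iff, Set.mem_singleton_iff, W.x.injEq, adj] at e1 e2 ⊢
            ((try generalize (1 : ZMod p) = e at *); (try generalize (1 : ZMod q) = f at *); (try generalize (1 : ZMod q') = g at *); (try generalize (1 : ZMod r) = h at *); grind)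
        · refine ⟨m j (i - 1), ?_⟩
          intro v hv
          have e1 := adj_or_eq hp hq hS hv0 hv
          cases v with
          | m i' j' => exact absurd hv (hm i' j')
          | x i' j' =>
            have e2 : ¬ (i' = i + 1 ∧ j' = j) := by rintro ⟨rfl, rfl⟩; exact h1 hv
            simp only [cl, Set.mem_insert_iff, Set.mem_singleton_iff, W.x.injEq, adj] at e1 ⊢
            ((try generalize (1 : ZMod p) = e at *); (try generalize (1 : ZMod q) = f at *); (try generalize (1 : ZMod q') = g at *); (try generalize (1 : ZMod r) = h at *); grind)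

lemma cl_maximal (c : W q p) : Maximal (T p q hp hq).G.IsClique (cl c) := by
  refine ⟨cl_clique hp hq c, ?_⟩
  intro S hS hcS
  obtain ⟨d, hd⟩ := clique_subset hp hq hS
  have : c = d := cl_inj_of_subset hp hq (hcS.trans hd)
  rw [this]
  exact hd

lemma cl_surj {S : Set (W p q)} (hS : Maximal (T p q hp hq).G.IsClique S) : ∃ c : W q p, cl c = S := by
  obtain ⟨c, hc⟩ := clique_subset hp hq hS.1
  exact ⟨c, Set.Subset.antisymm (hS.2 (cl_clique hp hq c) hc) hc⟩

include hp hq in
lemma adj_iff_meet (c d : W q p) : adj c d ↔ c ≠ d ∧ (cl c ∩ cl d : Set (W p q)).Nonempty := by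
  have hp1 := one_ne hp
  have hp2 := two_ne hp
  have hq1 := one_ne hq
  have hq2 := two_ne hq
  constructor
  · intro h
    refine ⟨by rintro rfl; exact adj_irrefl hq1 hp1 c h, ?_⟩
    cases c with
    | x j i =>
      cases d with
      | x j' i' =>
        simp only [adj] at h
        obtain ⟨rfl, rfl | rfl⟩ := h
        · exact ⟨m i j, by simp [cl], by simp [cl]⟩
        · exact ⟨m i j', by simp [cl], by simp [cl]⟩
      | m j' i' =>
        simp only [adj] at h
        obtain ⟨rfl, rfl | rfl⟩ := h
        · exact ⟨x i' j, by simp [cl], by simp [cl]⟩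
        · exact ⟨x (i' + 1) j, by simp [cl], by simp [cl]⟩
    | m j i =>
      cases d with
      | x j' i' =>
        simp only [adj] at h
        obtain ⟨rfl, rfl | rfl⟩ := h
        · exact ⟨x i j', by simp [cl], by simp [cl]⟩
        · exact ⟨x (i + 1) j', by simp [cl], by simp [cl]⟩
      | m j' i' =>
        simp only [adj] at h
        obtain ⟨rfl, rfl | rfl⟩ := h
        · exact ⟨x (i + 1) j, by simp [cl], by simp [cl]⟩
        · exact ⟨x (i' + 1) j, by simp [cl], by simp [cl]⟩
  · rintro ⟨h, ⟨v, hv1, hv2⟩⟩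
    cases c with
    | x j i =>
      cases d with
      | x j' i' =>
        have h' : ¬ (j = j' ∧ i = i') := by rintro ⟨rfl, rfl⟩; exact h rfl
        cases v with
        | x a b =>
          simp only [cl, Set.mem_insert_iff, Set.mem_singleton_iff, W.x.injEq, reduceCtorEq, adj] at hv1 hv2 ⊢
          ((try generalize (1 : ZMod p) = e at *); (try generalize (1 : ZMod q) = f at *); (try generalize (1 : ZMod q') = g at *); (try generalize (1 : ZMod r) = h at *); grind)
        | m a b =>
          simp only [cl, Set.mem_insert_iff, Set.mem_singleton_iff, W.m.injEq, reduceCtorEq, adj] at hv1 hv2 ⊢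
          ((try generalize (1 : ZMod p) = e at *); (try generalize (1 : ZMod q) = f at *); (try generalize (1 : ZMod q') = g at *); (try generalize (1 : ZMod r) = h at *); grind)
      | m j' i' =>
        cases v with
        | x a b =>
          simp only [cl, Set.mem_insert_iff, Set.mem_singleton_iff, W.x.injEq, reduceCtorEq, adj] at hv1 hv2 ⊢
          ((try generalize (1 : ZMod p) = e at *); (try generalize (1 : ZMod q) = f at *); (try generalize (1 : ZMod q') = g at *); (try generalize (1 : ZMod r) = h at *); grind)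
        | m a b =>
          simp only [cl, Set.mem_insert_iff, Set.mem_singleton_iff, W.m.injEq, reduceCtorEq, adj] at hv1 hv2 ⊢
          ((try generalize (1 : ZMod p) = e at *); (try generalize (1 : ZMod q) = f at *); (try generalize (1 : ZMod q') = g at *); (try generalize (1 : ZMod r) = h at *); grind)
    | m j i =>
      cases d with
      | x j' i' =>
        cases v with
        | x a b =>
          simp only [cl, Set.mem_insert_iff, Set.mem_singleton_iff, W.x.injEq, reduceCtorEq, adj] at hv1 hv2 ⊢
          ((try generalize (1 : ZMod p) = e at *); (try generalize (1 : ZMod q) = f at *); (try generalize (1 : ZMod q') = g at *); (try generalize (1 : ZMod r) = h at *); grind)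
        | m a b =>
          simp only [cl, Set.mem_insert_iff, Set.mem_singleton_iff, reduceCtorEq, adj] at hv1 hv2 ⊢
          ((try generalize (1 : ZMod p) = e at *); (try generalize (1 : ZMod q) = f at *); (try generalize (1 : ZMod q') = g at *); (try generalize (1 : ZMod r) = h at *); grind)
      | m j' i' =>
        have h' : ¬ (j = j' ∧ i = i') := by rintro ⟨rfl, rfl⟩; exact h rfl
        cases v with
        | x a b =>
          simp only [cl, Set.mem_insert_iff, Set.mem_singleton_iff, W.x.injEq, adj] at hv1 hv2 ⊢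
          ((try generalize (1 : ZMod p) = e at *); (try generalize (1 : ZMod q) = f at *); (try generalize (1 : ZMod q') = g at *); (try generalize (1 : ZMod r) = h at *); grind)
        | m a b =>
          simp only [cl, Set.mem_insert_iff, Set.mem_singleton_iff, reduceCtorEq, adj] at hv1 hv2 ⊢
          ((try generalize (1 : ZMod p) = e at *); (try generalize (1 : ZMod q) = f at *); (try generalize (1 : ZMod q') = g at *); (try generalize (1 : ZMod r) = h at *); grind)

/-- `kG(p,q) ≅ G(q,p)` -/
theorem k_iso : (T p q hp hq).k.Iso (T q p hq hp) := by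
  let Φ : (T q p hq hp).V → (T p q hp hq).k.V := fun c => ⟨cl c, cl_maximal hp hq c⟩
  have hΦ : Function.Bijective Φ := by
    constructor
    · intro c d h
      have : cl c = cl d := congrArg Subtype.val h
      exact cl_inj_of_subset hp hq this.le
    · rintro ⟨S, hS⟩
      obtain ⟨c, hc⟩ := cl_surj hp hq hS
      exact ⟨c, Subtype.ext hc⟩
  refine ⟨RelIso.symm ⟨Equiv.ofBijective Φ hΦ, ?_⟩⟩
  intro c d
  change (Φ c ≠ Φ d ∧ ((Φ c).1 ∩ (Φ d).1).Nonempty) ↔ adj c d
  rw [adj_iff_meet hp hq c d]
  constructor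
  · rintro ⟨h1, h2⟩
    exact ⟨fun h => h1 (by rw [h]), h2⟩
  · rintro ⟨h1, h2⟩
    exact ⟨fun h => h1 (hΦ.1 h), h2⟩

end cliques

/-! ### Connectedness -/

lemma conn (hp : 4 ≤ p) (hq : 4 ≤ q) : (T p q hp hq).G.Connected := by
  have hnp : NeZero p := ⟨by omega⟩
  have hnq : NeZero q := ⟨by omega⟩
  have step1 : ∀ (i : ZMod p) (j : ZMod q), (T p q hp hq).G.Adj (x i j) (x (i + 1) j) :=
    fun i j => ⟨rfl, Or.inl rfl⟩
  have step2 : ∀ (i : ZMod p) (j : ZMod q), (T p q hp hq).G.Adj (m i j) (m i (j + 1)) :=
    fun i j => ⟨rfl, Or.inl rfl⟩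
  have step3 : ∀ (i : ZMod p) (j : ZMod q), (T p q hp hq).G.Adj (x i j) (m i j) :=
    fun i j => ⟨rfl, Or.inl rfl⟩
  have h1 : ∀ (n : ℕ) (j : ZMod q), (T p q hp hq).G.Reachable (x 0 j) (x (n : ZMod p) j) := by
    intro n j
    induction n with
    | zero => simp
    | succ n ih =>
      refine ih.trans ?_
      push_cast
      exact (step1 _ j).reachable
  have h2 : ∀ (n : ℕ), (T p q hp hq).G.Reachable (m 0 0) (m 0 (n : ZMod q)) := by
    intro n
    induction n with
    | zero => simp
    | succ n ih =>
      refine ih.trans ?_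
      push_cast
      exact (step2 _ _).reachable
  have h1' : ∀ (i : ZMod p) (j : ZMod q), (T p q hp hq).G.Reachable (x 0 j) (x i j) := by
    intro i j
    have := h1 i.val j
    rwa [ZMod.natCast_zmod_val] at this
  have h2' : ∀ (j : ZMod q), (T p q hp hq).G.Reachable (m 0 0) (m 0 j) := by
    intro j
    have := h2 j.val
    rwa [ZMod.natCast_zmod_val] at this
  have hall : ∀ v, (T p q hp hq).G.Reachable (m 0 0) v := by
    have hx : ∀ (i : ZMod p) (j : ZMod q), (T p q hp hq).G.Reachable (m 0 0) (x i j) := fun i j =>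
      ((h2' j).trans (step3 0 j).symm.reachable).trans (h1' i j)
    intro v
    cases v with
    | x i j => exact hx i j
    | m i j => exact (hx i j).trans (step3 i j).reachable
  have hne : Nonempty (T p q hp hq).V := ⟨(m 0 0 : W p q)⟩
  exact ⟨fun u v => (hall u).symm.trans (hall v)⟩

/-! ### Covering maps `G(p, qr) → G(p, q)` -/

section cover

variable {q' : ℕ}

/-- reduction of the second coordinate modulo `q`, where `q ∣ q'` -/
def red (hdvd : q ∣ q') : W p q' → W p q
  | x i j => x i (ZMod.castHom hdvd (ZMod q) j)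
  | m i j => m i (ZMod.castHom hdvd (ZMod q) j)

set_option maxHeartbeats 4000000 in
lemma red_cover (hp : 4 ≤ p) (hq : 4 ≤ q) (hq' : 4 ≤ q') (hdvd : q ∣ q') :
    TriCover (T p q' hp hq') (T p q hp hq) (red hdvd) := by
  have hq1 := one_ne hq
  have hq2 := two_ne hq
  have hq3 := three_ne hq
  have hp1 := one_ne hp
  have hp2 := two_ne hp
  have hp3 := three_ne hp
  set φ := ZMod.castHom hdvd (ZMod q) with hφ
  have hadd : ∀ a b, φ (a + b) = φ a + φ b := fun a b => map_add φ a b
  have hsub : ∀ a b, φ (a - b) = φ a - φ b := fun a b => map_sub φ a b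
  have hone : φ 1 = 1 := map_one φ
  have hhom : ∀ u v : W p q', adj u v → adj (red hdvd u) (red hdvd v) := by
    intro u v h
    cases u <;> cases v <;> simp only [adj, red, ← hφ] at h ⊢
    · obtain ⟨rfl, h⟩ := h
      exact ⟨rfl, h⟩
    · obtain ⟨rfl, rfl | rfl⟩ := h
      · exact ⟨rfl, Or.inl rfl⟩
      · exact ⟨rfl, Or.inr (by rw [hadd, hone])⟩
    · obtain ⟨rfl, rfl | rfl⟩ := h
      · exact ⟨rfl, Or.inl rfl⟩
      · exact ⟨rfl, Or.inr (by rw [hadd, hone])⟩
    · obtain ⟨rfl, rfl | rfl⟩ := h
      · exact ⟨rfl, Or.inl (by rw [hadd, hone])⟩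
      · exact ⟨rfl, Or.inr (by rw [hadd, hone])⟩
  -- description of the closed neighbourhoods
  have hnx : ∀ {r : ℕ} (i : ZMod p) (j : ZMod r) (v : W p r), (v = x i j ∨ adj (x i j) v) ↔
      (v = x i j ∨ v = x (i + 1) j ∨ v = x (i - 1) j ∨ v = m i j ∨ v = m i (j - 1)) := by
    intro r i j v
    cases v with
    | x a b =>
      simp only [adj, W.x.injEq, reduceCtorEq, or_false]
      ((try generalize (1 : ZMod p) = e at *); (try generalize (1 : ZMod q) = f at *); (try generalize (1 : ZMod q') = g at *); (try generalize (1 : ZMod r) = h at *); grind)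
    | m a b =>
      simp only [adj, W.m.injEq, reduceCtorEq, false_or]
      ((try generalize (1 : ZMod p) = e at *); (try generalize (1 : ZMod q) = f at *); (try generalize (1 : ZMod q') = g at *); (try generalize (1 : ZMod r) = h at *); grind)
  have hnm : ∀ {r : ℕ} (i : ZMod p) (j : ZMod r) (v : W p r), (v = m i j ∨ adj (m i j) v) ↔
      (v = m i j ∨ v = m i (j + 1) ∨ v = m i (j - 1) ∨ v = x i j ∨ v = x i (j + 1)) := by
    intro r i j v
    cases v with
    | x a b =>
      simp only [adj, W.x.injEq, reduceCtorEq, false_or]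
      ((try generalize (1 : ZMod p) = e at *); (try generalize (1 : ZMod q) = f at *); (try generalize (1 : ZMod q') = g at *); (try generalize (1 : ZMod r) = h at *); grind)
    | m a b =>
      simp only [adj, W.m.injEq, reduceCtorEq, or_false]
      ((try generalize (1 : ZMod p) = e at *); (try generalize (1 : ZMod q) = f at *); (try generalize (1 : ZMod q') = g at *); (try generalize (1 : ZMod r) = h at *); grind)
  have hinj : ∀ v : W p q', ∀ a, (a = v ∨ adj v a) → ∀ b, (b = v ∨ adj v b) →
      red hdvd a = red hdvd b → a = b := by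
    intro v a ha b hb hab
    cases v with
    | x i j =>
      rw [hnx] at ha hb
      rcases ha with rfl | rfl | rfl | rfl | rfl <;> rcases hb with rfl | rfl | rfl | rfl | rfl <;>
        simp only [red, ← hφ, W.x.injEq, W.m.injEq, reduceCtorEq, hadd, hsub, hone] at hab ⊢ <;> ((try generalize (1 : ZMod p) = e at *); (try generalize (1 : ZMod q) = f at *); (try generalize (1 : ZMod q') = g at *); (try generalize (1 : ZMod r) = h at *); grind)
    | m i j =>
      rw [hnm] at ha hb
      rcases ha with rfl | rfl | rfl | rfl | rfl <;> rcases hb with rfl | rfl | rfl | rfl | rfl <;>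
        simp only [red, ← hφ, W.x.injEq, W.m.injEq, reduceCtorEq, hadd, hsub, hone] at hab ⊢ <;> ((try generalize (1 : ZMod p) = e at *); (try generalize (1 : ZMod q) = f at *); (try generalize (1 : ZMod q') = g at *); (try generalize (1 : ZMod r) = h at *); grind)
  refine ⟨conn hp hq', conn hp hq, hhom, ?_, ?_⟩
  · intro v
    refine ⟨?_, ?_, ?_⟩
    · intro a ha
      rcases ha with rfl | ha
      · exact Or.inl rfl
      · exact Or.inr (hhom _ _ ha)
    · intro a ha b hb hab
      exact hinj v a ha b hb hab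
    · intro w hw
      change w = red hdvd v ∨ adj (red hdvd v) w at hw
      change ∃ a, (a = v ∨ adj v a) ∧ red hdvd a = w
      cases v with
      | x i j =>
        change w = x i (φ j) ∨ adj (x i (φ j)) w at hw
        rw [hnx] at hw
        rcases hw with rfl | rfl | rfl | rfl | rfl
        · exact ⟨x i j, (hnx _ _ _).mpr (by simp), rfl⟩
        · exact ⟨x (i + 1) j, (hnx _ _ _).mpr (by simp), rfl⟩
        · exact ⟨x (i - 1) j, (hnx _ _ _).mpr (by simp), rfl⟩
        · exact ⟨m i j, (hnx _ _ _).mpr (by simp), rfl⟩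
        · exact ⟨m i (j - 1), (hnx _ _ _).mpr (by simp), by simp only [red, ← hφ]; rw [hsub, hone]⟩
      | m i j =>
        change w = m i (φ j) ∨ adj (m i (φ j)) w at hw
        rw [hnm] at hw
        rcases hw with rfl | rfl | rfl | rfl | rfl
        · exact ⟨m i j, (hnm _ _ _).mpr (by simp), rfl⟩
        · exact ⟨m i (j + 1), (hnm _ _ _).mpr (by simp), by simp only [red, ← hφ]; rw [hadd, hone]⟩
        · exact ⟨m i (j - 1), (hnm _ _ _).mpr (by simp), by simp only [red, ← hφ]; rw [hsub, hone]⟩
        · exact ⟨x i j, (hnm _ _ _).mpr (by simp), rfl⟩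
        · exact ⟨x i (j + 1), (hnm _ _ _).mpr (by simp), by simp only [red, ← hφ]; rw [hadd, hone]⟩
  · intro v a ha b hb
    change a = v ∨ adj v a at ha
    change b = v ∨ adj v b at hb
    refine ⟨hhom a b, ?_⟩
    intro h
    change adj (red hdvd a) (red hdvd b) at h
    change adj a b
    cases v with
    | x i j =>
      rw [hnx] at ha hb
      rcases ha with rfl | rfl | rfl | rfl | rfl <;> rcases hb with rfl | rfl | rfl | rfl | rfl <;>
        simp only [red, ← hφ, adj, hadd, hsub, hone] at h ⊢ <;> ((try generalize (1 : ZMod p) = e at *); (try generalize (1 : ZMod q) = f at *); (try generalize (1 : ZMod q') = g at *); (try generalize (1 : ZMod r) = h at *); grind)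
    | m i j =>
      rw [hnm] at ha hb
      rcases ha with rfl | rfl | rfl | rfl | rfl <;> rcases hb with rfl | rfl | rfl | rfl | rfl <;>
        simp only [red, ← hφ, adj, hadd, hsub, hone] at h ⊢ <;> ((try generalize (1 : ZMod p) = e at *); (try generalize (1 : ZMod q) = f at *); (try generalize (1 : ZMod q') = g at *); (try generalize (1 : ZMod r) = h at *); grind)

end cover

/-! ### A distinguishing property -/

/-- `G` has a 4-cycle none of whose edges lies in a triangle. -/
def P4 (A : Gr) : Prop := ∃ a b c d : A.V, A.G.Adj a b ∧ A.G.Adj b c ∧ A.G.Adj c d ∧ A.G.Adj d a ∧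
  a ≠ c ∧ b ≠ d ∧ (∀ v, ¬ (A.G.Adj a v ∧ A.G.Adj b v)) ∧ (∀ v, ¬ (A.G.Adj b v ∧ A.G.Adj c v)) ∧
  (∀ v, ¬ (A.G.Adj c v ∧ A.G.Adj d v)) ∧ (∀ v, ¬ (A.G.Adj d v ∧ A.G.Adj a v))

lemma P4_iso {A B : Gr} (h : A.Iso B) (hA : P4 A) : P4 B := by
  obtain ⟨φ⟩ := h
  obtain ⟨a, b, c, d, h1, h2, h3, h4, h5, h6, h7, h8, h9, h10⟩ := hA
  have e : ∀ u v, B.G.Adj (φ u) v ↔ A.G.Adj u (φ.symm v) := by
    intro u v
    have := φ.map_rel_iff (a := u) (b := φ.symm v)
    rwa [RelIso.apply_symm_apply] at this
  refine ⟨φ a, φ b, φ c, φ d, φ.map_rel_iff.mpr h1, φ.map_rel_iff.mpr h2, φ.map_rel_iff.mpr h3,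
    φ.map_rel_iff.mpr h4, fun h => h5 (φ.injective h), fun h => h6 (φ.injective h), ?_, ?_, ?_, ?_⟩
  · intro v; rw [e, e]; exact h7 _
  · intro v; rw [e, e]; exact h8 _
  · intro v; rw [e, e]; exact h9 _
  · intro v; rw [e, e]; exact h10 _

lemma P4_true (hq : 4 ≤ q) : P4 (T 4 q le_rfl hq) := by
  have hq1 := one_ne hq
  have hno : ∀ (i i' : ZMod 4), i' = i + 1 → ∀ (v : W 4 q), ¬ (adj (x i 0) v ∧ adj (x i' 0) v) := by
    intro i i' hi v
    subst hi
    cases v with
    | x a b =>
      simp only [adj]
      rintro ⟨⟨-, h1⟩, ⟨-, h2⟩⟩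
      revert i a
      decide
    | m a b =>
      simp only [adj]
      rintro ⟨⟨h1, -⟩, ⟨h2, -⟩⟩
      revert i a
      decide
  have d1 : (1 : ZMod 4) = 0 + 1 := by decide
  have d2 : (2 : ZMod 4) = 1 + 1 := by decide
  have d3 : (3 : ZMod 4) = 2 + 1 := by decide
  have d0 : (0 : ZMod 4) = 3 + 1 := by decide
  refine ⟨x 0 0, x 1 0, x 2 0, x 3 0, ⟨rfl, Or.inl d1⟩, ⟨rfl, Or.inl d2⟩, ⟨rfl, Or.inl d3⟩,
    ⟨rfl, Or.inl d0⟩, ?_, ?_, hno 0 1 d1, hno 1 2 d2, hno 2 3 d3, hno 3 0 d0⟩
  · intro h
    have h1 : (0 : ZMod 4) = 2 := (W.x.inj h).1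
    revert h1
    decide
  · intro h
    have h1 : (1 : ZMod 4) = 3 := (W.x.inj h).1
    revert h1
    decide

lemma P4_false (hp : 5 ≤ p) (hq : 4 ≤ q) : ¬ P4 (T p q (by omega) hq) := by
  have hp1 := one_ne (show 4 ≤ p by omega)
  have hp2 := two_ne (show 4 ≤ p by omega)
  have hp4 : (1 : ZMod p) + 1 + 1 + 1 ≠ 0 := by
    intro h
    have h1 : ((4 : ℕ) : ZMod p) = 0 := by push_cast; linear_combination h
    rw [ZMod.natCast_eq_zero_iff] at h1
    have := Nat.le_of_dvd (by norm_num) h1
    omega
  have hq1 := one_ne hq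
  -- an edge in no triangle joins two `x`
  have key : ∀ a b : W p q, adj a b → (∀ v, ¬ (adj a v ∧ adj b v)) →
      ∃ i i' j, a = x i j ∧ b = x i' j ∧ (i' = i + 1 ∨ i = i' + 1) := by
    intro a b hab hv
    cases a with
    | x i j =>
      cases b with
      | x i' j' =>
        simp only [adj] at hab
        obtain ⟨rfl, h⟩ := hab
        exact ⟨i, i', j, rfl, rfl, h⟩
      | m i' j' =>
        exfalso
        simp only [adj] at hab
        obtain ⟨rfl, rfl | rfl⟩ := hab
        · exact hv (m i (j' - 1)) ⟨by simp [adj], by simp [adj]⟩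
        · exact hv (m i (j' + 1)) ⟨by simp [adj], by simp [adj]⟩
    | m i j =>
      cases b with
      | x i' j' =>
        exfalso
        simp only [adj] at hab
        obtain ⟨rfl, rfl | rfl⟩ := hab
        · exact hv (m i' (j - 1)) ⟨by simp [adj], by simp [adj]⟩
        · exact hv (m i' (j + 1)) ⟨by simp [adj], by simp [adj]⟩
      | m i' j' =>
        exfalso
        simp only [adj] at hab
        obtain ⟨rfl, rfl | rfl⟩ := hab
        · exact hv (x i (j + 1)) ⟨by simp [adj], by simp [adj]⟩
        · exact hv (x i (j' + 1)) ⟨by simp [adj], by simp [adj]⟩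
  rintro ⟨a, b, c, d, h1, h2, h3, h4, h5, h6, h7, h8, h9, h10⟩
  obtain ⟨i1, i2, j, rfl, rfl, e1⟩ := key a b h1 h7
  obtain ⟨i2', i3, j', e, rfl, e2⟩ := key _ c h2 h8
  simp only [W.x.injEq] at e
  obtain ⟨rfl, rfl⟩ := e
  obtain ⟨i3', i4, j', e, rfl, e3⟩ := key _ d h3 h9
  simp only [W.x.injEq] at e
  obtain ⟨rfl, rfl⟩ := e
  obtain ⟨i4', i1', j', e, e', e4⟩ := key _ _ h4 h10
  simp only [W.x.injEq] at e e'
  obtain ⟨rfl, rfl⟩ := e
  obtain ⟨rfl, _⟩ := e'
  have h5' : i1 ≠ i3 := by rintro rfl; exact h5 rfl
  have h6' : i2 ≠ i4 := by rintro rfl; exact h6 rfl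
  clear h1 h2 h3 h4 h5 h6 h7 h8 h9 h10 key
  ((try generalize (1 : ZMod p) = e at *); (try generalize (1 : ZMod q) = f at *); (try generalize (1 : ZMod q') = g at *); (try generalize (1 : ZMod r) = h at *); grind)

end Pool.Agent.KS6_72C
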